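import Pool.Agent.H27.TM.TargetsA
import Pool.Agent.H56.DW.BQ

/-!
# (BQ) the dual sums, all frequencies of a class at once
-/

set_option autoImplicit false

open NumberField NumberField.InfinitePlace NumberField.Units
  NumberField.Units.dirichletUnitTheorem MeasureTheory Set Filter Complex
open scoped nonZeroDivisors ENNReal

namespace Pool.Agent.H64.TM.BQ

open Pool.Agent.H27.TM
open Pool.Agent.H25.HK Pool.Agent.H23.LB Pool.Agent.H23.LC
open Pool.Agent.H28.RC (Rep ft idl)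
open Pool.Agent.H29.DW (dg Rl lf wv Pos Wg cpar Ci om zs rv Wt)
open Pool.Agent.H31.SW (EE itg FF HD DB DS dif Pf GG G2 DD PP pF dK pz ps Tf WG bz)

private lemma norm_EE (z : ℂ) : ‖EE z‖ = 1 := by
  unfold EE
  rw [← Complex.ofReal_neg]
  exact Complex.norm_exp_ofReal_mul_I _

private lemma pz_zero (r : Bool) {x : ℂ} (h : 1 / 10000 ≤ ‖x‖) : pz r x = 0 := by
  unfold pz
  have : bz x = 0 := by
    apply bz.zero_of_le_dist
    rw [dist_zero_right]
    exact h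
  rw [this]
  simp

private lemma pz_norm (r : Bool) (x : ℂ) : ‖pz r x‖ ≤ 1 := by
  unfold pz
  rw [Complex.norm_real, Real.norm_of_nonneg bz.nonneg]
  exact bz.le_one

private lemma pz_meas (r : Bool) : Measurable (pz r) := by
  unfold pz
  exact Complex.measurable_ofReal.comp bz.continuous.measurable

private lemma tf {K : Type} [Field K] [NumberField K] (c : InfinitePlace K → ℂ) :
    Tf (fun v => GG (pz (rv v)) (c v)) := by
  refine ⟨fun v => ?_, fun v w => ?_, fun v w hw => ?_⟩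
  · unfold GG EE
    have h1 : Measurable (fun w : ℂ => pz (rv v) (w - 1)) :=
      (pz_meas (rv v)).comp (measurable_id.sub_const 1)
    have h2 : Measurable (fun w : ℂ => ((c v * Complex.log w).re : ℝ)) :=
      Complex.measurable_re.comp (Complex.measurable_log.const_mul (c v))
    exact (Complex.measurable_exp.comp
      ((Complex.measurable_ofReal.comp h2).neg.mul_const I)).mul h1
  · unfold GG
    rw [norm_mul, norm_EE, one_mul]
    exact pz_norm _ _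
  · unfold GG
    rw [pz_zero (rv v) (by linarith), mul_zero]

section

variable {K : Type} [Field K] [NumberField K]

private lemma mem_du {f : Ideal (𝓞 K)} (hf : f ≠ ⊥) {M : FI K} (hM : M ≠ 0) {l : K}
    (hl : l ∈ (f : FI K) * du K ((f : FI K) * M)) : l ∈ du K M := by
  have hfM : (f : FI K) * M ≠ 0 :=
    mul_ne_zero (FractionalIdeal.coeIdeal_ne_zero.mpr hf) hM
  have h : (f : FI K) * du K ((f : FI K) * M) ≤ du K M := by
    unfold du
    rw [FractionalIdeal.le_dual_iff ℤ ℚ hM]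
    have h1 := FractionalIdeal.dual_mul_self ℤ ℚ hfM
    rw [← h1]
    refine le_of_eq ?_
    ring
  exact h hl

private lemma ch_per {f : Ideal (𝓞 K)} (hf : f ≠ ⊥) (D : Sys K f) (χ : HG K f) (i : D.ι)
    {l : K} (hl : l ∈ (f : FI K) * du K ((f : FI K) * D.M i)) (x : K) :
    ch D χ i (x + l) = ch D χ i x := by
  have hM := D.reps.1 i
  have hl' := mem_du hf hM hl
  unfold ch ft
  refine Finset.sum_congr rfl fun r hr => ?_
  congr 1
  have h1 := Pool.Agent.H56.DW.trace_one (D.M i) hM ((D.rep i).1 r hr) hl'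
  have h2 : (2 * Real.pi * I * ((Algebra.trace ℚ K (r * (x + l)) : ℚ) : ℂ)) =
      (2 * Real.pi * I * ((Algebra.trace ℚ K (r * x) : ℚ) : ℂ)) +
      (2 * Real.pi * I * ((Algebra.trace ℚ K (r * l) : ℚ) : ℂ)) := by
    rw [mul_add, map_add]
    push_cast
    ring
  rw [h2, Complex.exp_add, h1, mul_one]

private lemma norm_ag (k : InfinitePlace K → ℤ) {x : K} (hx : x ≠ 0) : ‖ag k x‖ = 1 := by
  unfold ag
  rw [norm_prod]
  refine Finset.prod_eq_one fun v _ => ?_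
  have hv : v x ≠ 0 := v.pos_iff.2 hx |>.ne'
  rw [norm_zpow, norm_div, Complex.norm_real, v.norm_embedding_eq, Real.norm_of_nonneg
    (apply_nonneg v x), div_self hv, one_zpow]

private lemma norm_ph (ν : InfinitePlace K → ℝ) (x : K) : ‖ph ν x‖ = 1 := by
  unfold ph
  exact Complex.norm_exp_ofReal_mul_I _

private lemma ch_norm' (hDC : U_DC) {f : Ideal (𝓞 K)} (hf : f ≠ ⊥) (D : Sys K f) (χ : HG K f)
    (i : D.ι) (x : K) (hx : x ∈ du K ((f : FI K) * D.M i)) (hx0 : x ≠ 0) :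
    ‖ch D χ i x‖ ≤ Nf K f := by
  obtain ⟨h1, h2⟩ := hDC K f hf D χ
  have h3 := congrArg norm (h2 i x hx hx0)
  have hN : 0 ≤ Nf K f := by
    unfold Nf
    positivity
  rw [norm_mul, norm_mul, norm_mul, RCLike.norm_conj, RCLike.norm_conj, norm_ag _ hx0, norm_ph,
    mul_one, mul_one, Complex.norm_real, Real.norm_of_nonneg (Real.sqrt_nonneg _)] at h3
  rw [← h3]
  calc Real.sqrt (Nf K f) * ‖cd D χ (idl K (du K ((f : FI K) * D.M i)) x)‖ ≤
      Real.sqrt (Nf K f) * Real.sqrt (Nf K f) :=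
        mul_le_mul_of_nonneg_left (h1 _) (Real.sqrt_nonneg _)
    _ = Nf K f := Real.mul_self_sqrt hN

private lemma ch_norm (hDC : U_DC) {f : Ideal (𝓞 K)} (hf : f ≠ ⊥) (D : Sys K f) (χ : HG K f)
    (i : D.ι) (x : K) (hx : x ∈ du K ((f : FI K) * D.M i)) : ‖ch D χ i x‖ ≤ Nf K f := by
  by_cases hx0 : x = 0
  · have hM := D.reps.1 i
    have hf0 : (f : FI K) ≠ 0 := FractionalIdeal.coeIdeal_ne_zero.mpr hf
    have hfM : (f : FI K) * D.M i ≠ 0 := mul_ne_zero hf0 hM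
    have hI : (f : FI K) * du K ((f : FI K) * D.M i) ≠ 0 := by
      refine mul_ne_zero hf0 ?_
      unfold du
      exact FractionalIdeal.dual_ne_zero ℤ ℚ hfM
    obtain ⟨l, hl, hl0⟩ : ∃ l ∈ (f : FI K) * du K ((f : FI K) * D.M i), l ≠ 0 := by
      by_contra hcon
      push Not at hcon
      exact hI (FractionalIdeal.eq_zero_iff.2 hcon)
    have hl' : l ∈ du K ((f : FI K) * D.M i) := by
      have h : (f : FI K) * du K ((f : FI K) * D.M i) ≤ du K ((f : FI K) * D.M i) := by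
        calc (f : FI K) * du K ((f : FI K) * D.M i) ≤ 1 * du K ((f : FI K) * D.M i) := by
              gcongr
              exact FractionalIdeal.coeIdeal_le_one
          _ = _ := one_mul _
      exact h hl
    have h1 := ch_per hf D χ i hl 0
    rw [hx0, ← h1, zero_add]
    exact ch_norm' hDC hf D χ i l hl' hl0
  · exact ch_norm' hDC hf D χ i x hx hx0

private lemma Ci_le' {n : ℕ} (hn : Module.finrank ℚ K = n) (k : InfinitePlace K → ℤ)
    (ν : InfinitePlace K → ℝ) (t : ℝ)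
    (hk : ∀ v : InfinitePlace K, v.IsReal → k v = 0 ∨ k v = 1) :
    Ci k ν t ≤ 3 ^ n * PP (fun v => 1 + ‖cpar k ν t v‖) := by
  unfold PP Ci
  rw [← Pool.Agent.H29.DW.sum_mult hn, ← Finset.prod_pow_eq_pow_sum, ← Finset.prod_mul_distrib]
  refine Finset.prod_le_prod (fun v _ => by positivity) fun v _ => ?_
  rw [← mul_pow]
  refine pow_le_pow_left₀ (by positivity) ?_ _
  have h1 := Pool.Agent.H29.DW.le_norm_cpar k ν t hk v
  have h2 : max 1 ‖cpar k ν t v‖ ≤ 1 + ‖cpar k ν t v‖ :=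
    max_le (by linarith [norm_nonneg (cpar k ν t v)]) (by linarith)
  linarith

private lemma PP_cls {n : ℕ} (hn : Module.finrank ℚ K = n) {τ : InfinitePlace K → ℝ}
    {c : InfinitePlace K → ℂ} (h : Cls τ c) : PP (fun v => 1 + ‖c v‖) ≤ 2 ^ n * PP τ := by
  unfold PP
  rw [← Pool.Agent.H29.DW.sum_mult hn, ← Finset.prod_pow_eq_pow_sum, ← Finset.prod_mul_distrib]
  refine Finset.prod_le_prod (fun v _ => by positivity) fun v _ => ?_
  rw [← mul_pow]
  exact pow_le_pow_left₀ (by positivity) (h.upp v) _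

private lemma one_le_PP {τ : InfinitePlace K → ℝ} (h : ∀ v, 1 ≤ τ v) : 1 ≤ PP τ := by
  unfold PP
  calc (1 : ℝ) = ∏ v : InfinitePlace K, (1 : ℝ) := by simp
    _ ≤ ∏ v : InfinitePlace K, τ v ^ v.mult :=
      Finset.prod_le_prod (fun v _ => zero_le_one) fun v _ => one_le_pow₀ (h v)

private lemma Cls_neg {τ : InfinitePlace K → ℝ} {c : InfinitePlace K → ℂ} (h : Cls τ c) :
    Cls τ (fun v => -c v) := by
  refine ⟨h.one, fun v => ?_, fun v => ?_, fun v hv => ?_⟩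
  · rw [norm_neg]
    exact h.low v
  · rw [norm_neg]
    exact h.upp v
  · rw [Complex.neg_im, h.real v hv, neg_zero]

private lemma Spc_neg {ι : Type} {J : Finset ι} {c : ι → InfinitePlace K → ℂ}
    {G : InfinitePlace K → ℝ} {D : ℝ} (h : Spc J c G D) : Spc J (fun j v => -c j v) G D := by
  classical
  intro c₀
  refine le_trans (le_of_eq ?_) (h (fun v => -c₀ v))
  congr 2
  refine Finset.filter_congr fun j _ => ?_
  refine forall_congr' fun v => ?_
  rw [show -c j v - c₀ v = -(c j v - -c₀ v) by ring, norm_neg]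

end

private lemma Wt_mono {κ X X' B : ℝ} {v : ℝ → ℂ} (hκ : 0 < κ) (hX : 0 ≤ X) (hXX : X ≤ X')
    (hB : 0 ≤ B) (h : Wt κ X B v) : Wt κ X' B v := by
  intro σ hσ
  obtain ⟨g, hg, hgb, hv⟩ := h σ hσ
  refine ⟨g, hg, fun y => (hgb y).trans ?_, hv⟩
  have hσ0 : 0 ≤ σ := by
    rcases hσ with rfl | rfl
    · exact hκ.le
    · norm_num
  have := Real.rpow_le_rpow hX hXX hσ0
  gcongr

/-- the numerical part -/
private lemma num {ι : Type} (S : Finset ι) (T : ι → ℝ) {c₀ C B N hR D dk Z P B₁ : ℝ}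
    (hc₀ : 0 < c₀) (hC : 0 ≤ C) (hB : 0 ≤ B) (hhR : 0 ≤ hR) (hN : 1 ≤ N) (hD : 1 ≤ D)
    (hdk : 1 ≤ dk) (hZ : Z = D * dk * N) (hP : 0 ≤ P)
    (h : ∑ q ∈ S, (c₀ * T q) ^ 12 ≤ C * ((B * N * hR) ^ 12 * Z ^ B₁ * P)) :
    ∑ q ∈ S, T q ^ 12 ≤ C / c₀ ^ 12 * ((B * hR) ^ 12 * Z ^ (B₁ + 12) * P) := by
  have hDd : 1 ≤ D * dk := one_le_mul_of_one_le_of_one_le hD hdk
  have hZN : N ≤ Z := by
    rw [hZ]
    calc N = 1 * N := (one_mul N).symm
      _ ≤ D * dk * N := mul_le_mul_of_nonneg_right hDd (by linarith)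
  have hZ0 : 0 < Z := by linarith
  have h1 : Z ^ (B₁ + 12) = Z ^ B₁ * Z ^ 12 := by
    rw [Real.rpow_add hZ0]
    congr 1
    exact_mod_cast Real.rpow_natCast Z 12
  have h2 : N ^ 12 ≤ Z ^ 12 := pow_le_pow_left₀ (by linarith) hZN 12
  have h3 : 0 ≤ Z ^ B₁ := Real.rpow_nonneg hZ0.le _
  have h4 : ∑ q ∈ S, (c₀ * T q) ^ 12 = c₀ ^ 12 * ∑ q ∈ S, T q ^ 12 := by
    rw [Finset.mul_sum]
    exact Finset.sum_congr rfl fun q _ => by ring
  rw [h4] at h
  have hc : 0 < c₀ ^ 12 := by positivity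
  rw [h1, div_mul_eq_mul_div, le_div_iff₀ hc, mul_comm]
  refine h.trans (mul_le_mul_of_nonneg_left ?_ hC)
  have h5 : (B * N * hR) ^ 12 * Z ^ B₁ * P = ((B * hR) ^ 12 * Z ^ B₁ * P) * N ^ 12 := by ring
  have h6 : (B * hR) ^ 12 * (Z ^ B₁ * Z ^ 12) * P = ((B * hR) ^ 12 * Z ^ B₁ * P) * Z ^ 12 := by
    ring
  rw [h5, h6]
  exact mul_le_mul_of_nonneg_left h2 (by positivity)

open scoped Classical in
/-- (BQ) -/
theorem pf_BQ (hUQ : Pool.Agent.H31.SW.W_UQ) (hWL : Pool.Agent.H31.SW.W_WL) (hBI : M_BI)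
    (hRR : Pool.Agent.H23.LB.T_RR) (hDC : U_DC) : M_BQ := by
  intro n hn
  obtain ⟨B₁, hB₁, hBI'⟩ := hBI n hn
  obtain ⟨c₀, hc₀, hc⟩ := hWL n hn
  refine ⟨B₁ + 12, by linarith, fun ε κ hε hε1 hκ hκε => ?_⟩
  obtain ⟨C, hC0, hC⟩ := hBI' ε κ hε hε1 hκ hκε
  refine ⟨C / c₀ ^ 12, by positivity,
    fun K _ _ hK f hf Y τ S B D v hτ hCls hSpc hD hB hWt => ?_⟩
  have hreps : Reps K (fun i => du K ((f : FI K) * Y.M i)) :=
    (hRR K Y.ι _ ((hRR K Y.ι Y.M Y.reps).1 _ hf)).2.1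
  have hd1 : 1 ≤ dK K := Pool.Agent.H56.DW.one_le_disc (K := K)
  have hf1 := Pool.Agent.H56.DW.one_le_Nf hf
  have hP1 := one_le_PP hτ
  have h61 : (1 : ℝ) ≤ 6 ^ n := one_le_pow₀ (by norm_num)
  obtain ⟨A, hA⟩ : ∃ A : ℝ, A = 6 ^ n * (dK K * Nf K f * PP τ) := ⟨_, rfl⟩
  have hA1 : 1 ≤ A := by
    rw [hA]
    exact one_le_mul_of_one_le_of_one_le h61
      (one_le_mul_of_one_le_of_one_le (one_le_mul_of_one_le_of_one_le hd1 hf1) hP1)
  have hWt' : ∀ q ∈ S, Wt κ (Real.sqrt A) B (v q) := by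
    intro q hq
    refine Wt_mono hκ (Real.sqrt_nonneg _) (Real.sqrt_le_sqrt ?_) hB (hWt q hq)
    have h1 := Ci_le' hK q.1.k q.1.ν q.2 q.1.real_k
    have h2 := PP_cls hK (hCls q hq)
    have h3 : Ci q.1.k q.1.ν q.2 ≤ 6 ^ n * PP τ := by
      calc Ci q.1.k q.1.ν q.2 ≤ 3 ^ n * PP (fun v => 1 + ‖cpar q.1.k q.1.ν q.2 v‖) := h1
        _ ≤ 3 ^ n * (2 ^ n * PP τ) := mul_le_mul_of_nonneg_left h2 (by positivity)
        _ = 6 ^ n * PP τ := by
          rw [← mul_assoc, ← mul_pow]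
          norm_num
    rw [hA]
    have h4 : |(discr K : ℝ)| = dK K := rfl
    rw [h4]
    calc dK K * Nf K f * Ci q.1.k q.1.ν q.2 ≤ dK K * Nf K f * (6 ^ n * PP τ) :=
          mul_le_mul_of_nonneg_left h3 (by positivity)
      _ = 6 ^ n * (dK K * Nf K f * PP τ) := by ring
  have key := hC K hK Y.ι (fun i => du K ((f : FI K) * Y.M i)) hreps f τ (HG K f × ℝ) S
    (fun q w => -cq q w) (Real.sqrt A) B D (Nf K f) v (fun q i => ch Y q.1 i) false hf hτ
    (fun q hq => Cls_neg (hCls q hq)) (Spc_neg hSpc) hD (Real.one_le_sqrt.2 hA1)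
    (by
      rw [Real.sq_sqrt (by linarith), hA]) hB hWt' (by linarith)
    (fun q _ i x _ l hl => ch_per hf Y q.1 i hl x)
    (fun q _ i x hx => ch_norm hDC hf Y q.1 i x hx)
  have hI : ∀ q ∈ S, ENNReal.ofReal (c₀ * ‖∑' J : NZI K, cd Y q.1 J.1 * v q (Ideal.absNorm J.1) *
      (Ideal.absNorm J.1 : ℂ) ^ (q.2 * I : ℂ)‖) ≤
      ∑ i, ∫⁻ u in Fd K ×ˢ (univ : Set ℝ) ×ˢ An K,
        ENNReal.ofReal ‖∑' x : {x : K // x ∈ du K ((f : FI K) * Y.M i) ∧ x ≠ 0}, ch Y q.1 i x *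
          v q (Ideal.absNorm (idl K (du K ((f : FI K) * Y.M i)) x)) *
            pF (fun w => GG (pz (rv w)) (-cq q w))
              (yM K (du K ((f : FI K) * Y.M i)) u.2.1 (zs false u.1)) (om false u.2.2) x‖ := by
    intro q hq
    have ecq : (fun w => -cq q w) = cpar (-q.1.k) (-q.1.ν) (-q.2) := by
      rw [Pool.Agent.H29.DW.cpar_neg]
      rfl
    have hU := hUQ K _ hf Y q.1 (fun w => GG (pz (rv w)) (-cq q w)) (-q.2) (v q)
      (tf (fun w => -cq q w)) (Pool.Agent.H56.DW.Wt_bound (hWt q hq))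
    have eT : ∀ J : NZI K, (Ideal.absNorm J.1 : ℂ) ^ (-(((-q.2 : ℝ) : ℂ) * I : ℂ)) =
        (Ideal.absNorm J.1 : ℂ) ^ (q.2 * I : ℂ) := by
      intro J
      congr 1
      push_cast
      ring
    simp only [eT] at hU
    have hW := hc K hK (-q.1.k) (-q.1.ν) (-q.2) (by
      have := q.1.norm_zero
      simp only [Pi.neg_apply, mul_neg, Finset.sum_neg_distrib, this, neg_zero])
    rw [← ecq] at hW
    have hS : ENNReal.ofReal ‖(torsionOrder K : ℂ) *
        WG K (fun w => GG (pz (rv w)) (-cq q w)) (-q.1.k) (-q.1.ν) (-q.2) *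
          ((Real.sqrt (Nf K f) : ℝ) : ℂ) *
          ∑' J : NZI K, cd Y q.1 J.1 * v q (Ideal.absNorm J.1) *
            (Ideal.absNorm J.1 : ℂ) ^ (q.2 * I : ℂ)‖ ≤
        ∑ i, ∫⁻ u in Fd K ×ˢ (univ : Set ℝ) ×ˢ An K,
          ENNReal.ofReal ‖∑' x : {x : K // x ∈ du K ((f : FI K) * Y.M i) ∧ x ≠ 0},
            ch Y q.1 i x * v q (Ideal.absNorm (idl K (du K ((f : FI K) * Y.M i)) x)) *
              pF (fun w => GG (pz (rv w)) (-cq q w))
                (yM K (du K ((f : FI K) * Y.M i)) u.2.1 (zs false u.1)) (om false u.2.2) x‖ := by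
      rw [← hU]
      refine Pool.Agent.H56.DW.sum_int_le _ _ _ _ fun i a => ?_
      have e : (((-q.2 : ℝ) : ℂ) * (a.2.1 : ℂ)) = (((-q.2) * a.2.1 : ℝ) : ℂ) := by
        push_cast
        rfl
      rw [norm_mul, norm_mul, norm_mul (ek _ _), Pool.Agent.H56.DW.ec_norm,
        Pool.Agent.H56.DW.ek_norm, e, Complex.norm_exp_ofReal_mul_I, one_mul, one_mul, one_mul]
    refine (ENNReal.ofReal_le_ofReal ?_).trans hS
    have hsq1 : 1 ≤ Real.sqrt (Nf K f) := Real.one_le_sqrt.2 hf1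
    have hto : (1 : ℝ) ≤ (torsionOrder K : ℝ) := Pool.Agent.H56.DW.one_le_tor (K := K)
    rw [norm_mul, norm_mul, norm_mul, Complex.norm_natCast, Complex.norm_real,
      Real.norm_of_nonneg (by linarith)]
    refine mul_le_mul_of_nonneg_right ?_ (norm_nonneg _)
    calc c₀ = 1 * c₀ * 1 := by ring
      _ ≤ _ := by
        refine mul_le_mul ?_ hsq1 zero_le_one (by positivity)
        exact mul_le_mul hto hW hc₀.le (by linarith)
  have h2 : ∑ q ∈ S, ENNReal.ofReal (c₀ * ‖∑' J : NZI K, cd Y q.1 J.1 *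
      v q (Ideal.absNorm J.1) * (Ideal.absNorm J.1 : ℂ) ^ (q.2 * I : ℂ)‖) ^ 12 ≤
      ENNReal.ofReal (C * ((B * Nf K f * (classNumber K * regulator K)) ^ 12 *
        (D * dK K * Nf K f) ^ B₁ * PP τ ^ (2 + ε))) := by
    refine le_trans (Finset.sum_le_sum fun q hq => ?_) key
    exact pow_le_pow_left' (hI q hq) 12
  have hHR : 0 ≤ (classNumber K : ℝ) * regulator K :=
    mul_nonneg (Nat.cast_nonneg _) (regulator_pos K).le
  have hPP : 0 ≤ PP τ ^ (2 + ε) := Real.rpow_nonneg (by linarith) _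
  have hZ0 : 0 ≤ D * dK K * Nf K f := by positivity
  have hZB : 0 ≤ (D * dK K * Nf K f) ^ B₁ := Real.rpow_nonneg hZ0 _
  have h3 : ∑ q ∈ S, (c₀ * ‖∑' J : NZI K, cd Y q.1 J.1 *
      v q (Ideal.absNorm J.1) * (Ideal.absNorm J.1 : ℂ) ^ (q.2 * I : ℂ)‖) ^ 12 ≤
      C * ((B * Nf K f * (classNumber K * regulator K)) ^ 12 *
        (D * dK K * Nf K f) ^ B₁ * PP τ ^ (2 + ε)) := by
    rw [← ENNReal.ofReal_le_ofReal_iff (by positivity),
      ENNReal.ofReal_sum_of_nonneg fun q _ => by positivity]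
    refine le_trans (le_of_eq (Finset.sum_congr rfl fun q _ => ?_)) h2
    rw [ENNReal.ofReal_pow (by positivity)]
  exact num S _ hc₀ hC0 hB hHR hf1 hD hd1 rfl hPP h3

end Pool.Agent.H64.TM.BQ
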