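import Pool.Agent.H27.TM.TargetsG

/-!
# (P1) Poisson summation, from (PA)
-/

set_option autoImplicit false

open NumberField NumberField.InfinitePlace NumberField.Units
  NumberField.Units.dirichletUnitTheorem MeasureTheory Set Filter Complex
open scoped nonZeroDivisors ENNReal

namespace Pool.Agent.H64.TM.P1

open Pool.Agent.H27.TM
open Pool.Agent.H25.HK Pool.Agent.H23.LB Pool.Agent.H23.LC
open Pool.Agent.H28.RC (Rep ft idl)
open Pool.Agent.H29.DW (dg Rl lf wv Pos Wg cpar Ci om zs rv Wt)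
open Pool.Agent.H31.SW (EE itg FF HD DB DS dif Pf GG G2 DD PP pF dK pz ps Tf WG)

private lemma vol_S4 : (volume S4 : ℝ≥0∞) ≠ ⊤ := by
  have h : S4 ⊆ Metric.closedBall (0 : ℂ) 8 := by
    intro s hs
    obtain ⟨h1, h2⟩ := hs
    rw [mem_closedBall_zero_iff]
    have := Complex.norm_le_abs_re_add_abs_im s
    linarith
  exact ne_top_of_le_ne_top (measure_closedBall_lt_top).ne (measure_mono h)

private lemma meas_S4 : MeasurableSet S4 := by
  unfold S4
  exact (measurableSet_le (Complex.measurable_re.abs) measurable_const).inter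
    (measurableSet_le (Complex.measurable_im.abs) measurable_const)

section

variable {K : Type} [Field K] [NumberField K]

private lemma card_le {n : ℕ} (hn : Module.finrank ℚ K = n) :
    Fintype.card (InfinitePlace K) ≤ n := by
  rw [← hn, ← InfinitePlace.sum_mult_eq (K := K), Fintype.card_eq_sum_ones]
  exact Finset.sum_le_sum fun v _ => by
    unfold InfinitePlace.mult
    split_ifs <;> norm_num

private lemma dK_one : 1 ≤ dK K := by
  unfold dK
  have h := Int.one_le_abs (discr_ne_zero K)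
  exact_mod_cast h

end

theorem pf_P1 (hPA : M_PA) : M_P1 := by
  intro n q Ψ N hn hq hΨ hN
  obtain ⟨C₁, hC₁, hP⟩ := hPA n q Ψ N hn hq hΨ hN
  obtain ⟨V, hV⟩ : ∃ V : ℝ, V = (volume S4 : ℝ≥0∞).toReal := ⟨_, rfl⟩
  have hV0 : 0 ≤ V := by rw [hV]; exact ENNReal.toReal_nonneg
  refine ⟨C₁, (1 + V) ^ n, hC₁, by positivity, ?_⟩
  intro K _ _ hK L y ω r G α ι I c B hL hω hα hc hB
  obtain ⟨Q, b, hQ, hb, hmain⟩ := hP K hK L y ω r G α hL hω hα
  obtain ⟨F, hF⟩ : ∃ F : ι → (InfinitePlace K → ℂ) → ℂ, F = fun i s =>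
    ∑' ν : {ν : K // ν ∈ NN K}, b s ν * Ep α (Q s) (c i) ν := ⟨_, rfl⟩
  obtain ⟨T, hT⟩ : ∃ T : Set (InfinitePlace K → ℂ), T = Set.pi univ fun _ => S4 := ⟨_, rfl⟩
  have hFB : ∀ s, ∑ i ∈ I, ‖F i s‖ ≤ B := by
    intro s
    rw [hF]
    exact hB (Q s) (b s) (hQ s) (hb s)
  have hB0 : 0 ≤ B := (Finset.sum_nonneg fun i _ => norm_nonneg _).trans (hFB 0)
  have hD0 : 0 ≤ DD L y := by
    unfold DD
    exact div_nonneg (Real.exp_pos _).le (by exact_mod_cast FractionalIdeal.absNorm_nonneg L)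
  have hint : ∀ i ∈ I, IntegrableOn (F i) T := by
    intro i hi
    rw [hF, hT]
    exact (hmain (c i) (hc i hi)).1
  have hOD : ∀ i ∈ I, ‖OD q Ψ L y ω r G α (c i)‖ ≤ DD L y * ∫ s in T, ‖F i s‖ := by
    intro i hi
    rw [(hmain (c i) (hc i hi)).2, norm_mul, Complex.norm_real, Real.norm_of_nonneg (by positivity)]
    have h1 : DD L y / Real.sqrt (dK K) ≤ DD L y :=
      div_le_self hD0 (Real.one_le_sqrt.2 dK_one)
    have h2 : ‖∫ s in Set.pi univ fun _ => S4,
        ∑' ν : {ν : K // ν ∈ NN K}, b s ν * Ep α (Q s) (c i) ν‖ ≤ ∫ s in T, ‖F i s‖ := by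
      rw [hT, hF]
      exact norm_integral_le_integral_norm _
    exact mul_le_mul h1 h2 (norm_nonneg _) hD0
  have hTm : MeasurableSet T := by
    rw [hT]
    exact MeasurableSet.univ_pi fun _ => meas_S4
  have hTv : volume T = (volume S4 : ℝ≥0∞) ^ Fintype.card (InfinitePlace K) := by
    rw [hT, volume_pi_pi, Finset.prod_const, Finset.card_univ]
  have hTf : volume T ≠ ⊤ := by
    rw [hTv]
    exact ENNReal.pow_ne_top vol_S4
  have hTr : (volume T).toReal ≤ (1 + V) ^ n := by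
    rw [hTv, ENNReal.toReal_pow, ← hV]
    calc V ^ Fintype.card (InfinitePlace K) ≤ (1 + V) ^ Fintype.card (InfinitePlace K) := by
          gcongr
          linarith
      _ ≤ (1 + V) ^ n := pow_le_pow_right₀ (by linarith) (card_le hK)
  have hsum : ∑ i ∈ I, ∫ s in T, ‖F i s‖ ≤ B * (1 + V) ^ n := by
    rw [← integral_finsetSum I fun i hi => (hint i hi).norm]
    have h1 : ∫ s in T, ∑ i ∈ I, ‖F i s‖ ≤ ∫ _ in T, B := by
      refine integral_mono (integrable_finsetSum I fun i hi => (hint i hi).norm)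
        (integrableOn_const hTf) fun s => hFB s
    refine h1.trans ?_
    rw [setIntegral_const, smul_eq_mul, mul_comm]
    exact mul_le_mul_of_nonneg_left hTr hB0
  calc ∑ i ∈ I, ‖OD q Ψ L y ω r G α (c i)‖ ≤ ∑ i ∈ I, DD L y * ∫ s in T, ‖F i s‖ :=
        Finset.sum_le_sum hOD
    _ = DD L y * ∑ i ∈ I, ∫ s in T, ‖F i s‖ := by rw [Finset.mul_sum]
    _ ≤ DD L y * (B * (1 + V) ^ n) := mul_le_mul_of_nonneg_left hsum hD0
    _ = (1 + V) ^ n * (DD L y * B) := by ring

end Pool.Agent.H64.TM.P1
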